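import Pool.Agent.Helper35.MS.StE

/-!
# Project MS (MP_925021_gt), module EVC: composition with a function and addition of a function
of time
-/

set_option autoImplicit false

namespace Helper75.MS

open Helper35.MS Helper35.PI Helper35.PI2 Helper32.CL
open scoped ContDiff Manifold Topology ENNReal BigOperators
open MeasureTheory Set Filter

theorem hEVC (hPRJ : StPRJ) : StEVC := by
  intro N M _ _ _ J F hF u ψ a a' hu hψ ha ha'
  have hψ1 : ContDiff ℝ 1 ψ := hψ.of_le (by exact_mod_cast le_top)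
  have hdψ : ContDiff ℝ ∞ (deriv ψ) := by
    have := contDiff_infty_iff_deriv.1 hψ
    exact this.2
  have hdψ1 : ContDiff ℝ 1 (deriv ψ) := hdψ.of_le (by exact_mod_cast le_top)
  have hψd : ∀ x, HasDerivAt ψ (deriv ψ x) x := fun x =>
    (hψ1.differentiable one_ne_zero x).hasDerivAt
  -- gradient, for a general function
  have grd : ∀ (φ : ℝ → ℝ), ContDiff ℝ 1 φ → ∀ t ∈ J, ∀ q,
      gdM 2 F t (fun q => φ (u q t + a t)) q
        = deriv φ (u q t + a t) • gdM 2 F t (fun q => u q t) q := by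
    intro φ hφ t ht q
    have h := (hPRJ 2 N M J F hF t ht).2.2.2.1 (fun q => u q t) (hu.sm t ht)
      (fun x => φ (x + a t)) (hφ.comp (contDiff_id.add contDiff_const)) q
    rw [h, deriv_comp_add_const]
  have smφ : ∀ (φ : ℝ → ℝ), ContDiff ℝ 1 φ → ∀ t ∈ J,
      ContMDiff (𝓡 2) 𝓘(ℝ, ℝ) 1 (fun q => φ (u q t + a t)) := by
    intro φ hφ t ht
    have h1 : ContMDiff 𝓘(ℝ, ℝ) 𝓘(ℝ, ℝ) 1 (fun x => φ (x + a t)) :=
      (hφ.comp (contDiff_id.add contDiff_const)).contMDiff
    exact h1.comp (hu.sm t ht)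
  have hder : ∀ q, ∀ t ∈ J, HasDerivAt (fun s => ψ (u q s + a s))
      (deriv ψ (u q t + a t) * (deriv (fun s => u q s) t + a' t)) t := by
    intro q t ht
    exact (hψd _).comp t ((hu.hd q t ht).add (ha t ht))
  have hac : ContinuousOn a J := fun t ht => (ha t ht).continuousAt.continuousWithinAt
  have hsnd : ContinuousOn (fun z : M × ℝ => a z.2) (univ ×ˢ J) :=
    hac.comp continuous_snd.continuousOn (fun z hz => hz.2)
  have hsnd' : ContinuousOn (fun z : M × ℝ => a' z.2) (univ ×ˢ J) :=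
    ha'.comp continuous_snd.continuousOn (fun z hz => hz.2)
  have hgeq : ∀ t ∈ J, gdM 2 F t (fun q => ψ (u q t + a t)) =
      fun q => deriv ψ (u q t + a t) • gdM 2 F t (fun q => u q t) q := fun t ht =>
    funext (grd ψ hψ1 t ht)
  refine ⟨⟨?_, ?_, ?_, ?_, ?_, ?_⟩, ?_⟩
  · exact hψ1.continuous.comp_continuousOn (hu.c0.add hsnd)
  · have h1 : ContinuousOn (fun z : M × ℝ => deriv ψ (u z.1 z.2 + a z.2) *
        (deriv (fun s => u z.1 s) z.2 + a' z.2)) (univ ×ˢ J) :=
      (hdψ1.continuous.comp_continuousOn (hu.c0.add hsnd)).mul (hu.c1.add hsnd')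
    exact h1.congr fun z hz => (hder z.1 z.2 hz.2).deriv
  · intro q t ht
    have h := hder q t ht
    rw [h.deriv]
    exact h
  · exact smφ ψ hψ1
  · intro t ht
    rw [hgeq t ht]
    exact (smφ (deriv ψ) hdψ1 t ht).smul (hu.gr t ht)
  · intro t ht q
    rw [grd ψ hψ1 t ht q, inner_smul_right, hu.og t ht q, mul_zero]
  · intro q t ht
    refine ⟨grd ψ hψ1 t ht q, ?_⟩
    have h1 := (hPRJ 2 N M J F hF t ht).1 (fun q => deriv ψ (u q t + a t))
      (smφ (deriv ψ) hdψ1 t ht) (gdM 2 F t (fun q => u q t)) (hu.gr t ht) q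
    have h2 := grd (deriv ψ) hdψ1 t ht q
    unfold htF lapF
    rw [(hder q t ht).deriv, hgeq t ht, h1, h2, real_inner_smul_left, real_inner_self_eq_norm_sq]
    ring

end Helper75.MS
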