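import Pool.Agent.Helper35.MS.StE

/-!
# Project MS (MP_925021_gt), module PKG: the pointwise package from the pinching
-/

set_option autoImplicit false

namespace Helper75.MS

open Helper35.MS Helper35.PI Helper35.PI2 Helper32.CL
open scoped ContDiff Manifold Topology ENNReal BigOperators
open MeasureTheory Set Filter

/-- a linear function of `(|A|²,|H|²)` -/
private def lin (α β : ℝ) : ℝ × ℝ × ℝ × ℝ → ℝ := fun p => α * p.1 + β * p.2.1

private noncomputable def linL (α β : ℝ) : ℝ × ℝ × ℝ × ℝ →L[ℝ] ℝ :=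
  α • ContinuousLinearMap.fst ℝ ℝ (ℝ × ℝ × ℝ) +
    β • (ContinuousLinearMap.fst ℝ ℝ (ℝ × ℝ)).comp (ContinuousLinearMap.snd ℝ ℝ (ℝ × ℝ × ℝ))

private theorem lin_eq (α β : ℝ) : lin α β = fun p => linL α β p := by
  funext p
  simp [lin, linL]

private theorem lin_smooth (α β : ℝ) : ContDiff ℝ ∞ (lin α β) := by
  rw [lin_eq]
  exact (linL α β).contDiff

private theorem fd_lin (α β : ℝ) (y h : ℝ × ℝ × ℝ × ℝ) :
    fderiv ℝ (lin α β) y h = α * h.1 + β * h.2.1 := by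
  rw [lin_eq]
  rw [show (fun p => (linL α β) p) = ⇑(linL α β) from rfl, ContinuousLinearMap.fderiv]
  simp [linL]

private theorem cs_smooth (α β : ℝ) : (cφ (lin α β)).Smooth where
  sφ := lin_smooth α β
  s₁ := contDiff_const
  s₂ := contDiff_const
  s₃ := contDiff_const

section

variable {n N : ℕ} (α β l : ℝ) (A : Fin n → Fin n → EE N) (T : Fin n → Fin n → Fin n → EE N)
  (ν : EE N) (v : Fin n → ℝ)

private theorem hph_lin : hph l (cφ (lin α β)) A T ν v = α * hX A T + β * hY A T := by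
  unfold hph
  have e : (cφ (lin α β)).φ = lin α β := rfl
  rw [e, fd_lin]
  have h2 : ∀ k, fderiv ℝ (fun y => fderiv ℝ (lin α β) y (g4 l A T ν v k)) (J4 l A ν)
      (g4 l A T ν v k) = 0 := by
    intro k
    have : (fun y => fderiv ℝ (lin α β) y (g4 l A T ν v k)) =
        fun _ => α * (g4 l A T ν v k).1 + β * (g4 l A T ν v k).2.1 := by
      funext y
      exact fd_lin _ _ y _
    rw [this]
    simp
  simp only [h2, Finset.sum_const_zero, sub_zero]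
  rfl

private theorem gph_lin (k : Fin n) :
    gph l (cφ (lin α β)) A T ν v k = α * gX A T k + β * gY A T k := by
  unfold gph
  have e : (cφ (lin α β)).φ = lin α β := rfl
  rw [e, fd_lin]
  rfl

private theorem dvA_lin : dvA 0 l (cφ (lin α β)) A T ν v = -(α * hX A T + β * hY A T) := by
  unfold dvA dVa
  rw [hph_lin]
  ring

end

/-- the algebra at a point -/
private theorem alg (hAV4 : StAV4) (hT3 : StT3) (hPE : StPE) (hJID : StJID) {N : ℕ}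
    (x₀ : EE N) (r r2 ε : ℝ) (A : Fin 2 → Fin 2 → EE N) (T : Fin 2 → Fin 2 → Fin 2 → EE N)
    (hr : 0 < r) (hr2 : r2 = r ^ 2) (hx₀ : ‖x₀‖ ^ 2 = r2) (hA : SymV A) (hT : Sym3V T)
    (h1 : ∀ i j, (inner ℝ (A i j) x₀ : ℝ) = if i = j then -1 else 0)
    (h2 : ∀ i j k, (inner ℝ (T i j k) x₀ : ℝ) = 0) (hε : 0 < ε) (hε1 : ε ≤ 1 / 1000)
    (hpin : r2 * (2 * XX A - YY A) / 4 - fm0 (r2 * YY A / 4 - 1)
      + gm0 (r2 * YY A / 4 - 1) * Real.sqrt (r2 ^ 2 * (ZZ A - YY A ^ 2 / 2) / 8 + ε ^ 2) ≤ 0) :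
    4 / r2 ≤ YY A ∧ 0 ≤ 2 * XX A - YY A ∧ 2 * XX A - YY A ≤ 2 / 3 * YY A ∧
    YY A ^ 2 ≤ 2 * ZZ A ∧ 2 * ZZ A ≤ YY A ^ 2 + YY A * (2 * XX A - YY A) ∧
    3 * eq2 T ≤ 4 * tq T ∧ 4 * Sq A - 2 * ZZ A ≤ 2 * (YY A * (2 * XX A - YY A)) ∧
    6 * Sq A - 2 * ZZ A - 2 * AAH A - YY A * (2 * XX A - YY A)
      ≤ -(ε / 80 * (YY A * (2 * XX A - YY A))) ∧ 0 ≤ eq2 T := by
  obtain ⟨m, a, b, m₁, m₂, p, q, a₁, b₁, a₂, b₂, x, s, v, α, β, dα₁, dα₂, dβ₁, dβ₂, D, hm, ha, hb,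
    -, -, -, -, -, -, -, -, hx, hs, hα, hβ, hv, hD, -, -, -, -, hxe, hse, hve, -⟩ :=
    hJID N x₀ r r2 A T hr hr2 hx₀ hA hT h1 h2
  have hr2p : 0 < r2 := by rw [hr2]; positivity
  rw [← hxe, ← hse, ← hve] at hpin
  have hv' : v = (inner ℝ m a : ℝ) ^ 2 + (inner ℝ m b : ℝ) ^ 2 := by rw [hv, hα, hβ]
  obtain ⟨k1, k2⟩ := hAV4 (EE N) m a b ε x s v hε hε1 hx hs hv' (by linarith)
  rw [← hD] at k1
  have hx0 : 0 ≤ x := by rw [hx]; positivity
  have hs0 : 0 ≤ s := by rw [hs]; positivity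
  set y := YY A with hy
  set θ := 2 * XX A - YY A with hθ
  obtain ⟨pe1, pe2⟩ := hPE N A 0 hA (A 0 0 - A 1 1) ((2 : ℝ) • A 0 1) (Hv A) rfl rfl rfl θ y rfl rfl
  obtain ⟨-, pe3⟩ := hPE N A (1 / 2) hA (A 0 0 - A 1 1) ((2 : ℝ) • A 0 1) (Hv A) rfl rfl rfl θ y
    rfl rfl
  set P := A 0 0 - A 1 1 with hP
  set Q := (2 : ℝ) • A 0 1 with hQ
  set H := Hv A with hH
  have hyH : y = ‖H‖ ^ 2 := rfl
  have e1 : r2 * y = 4 * (1 + x) := by rw [hxe]; ring
  have e2 : r2 * θ = 4 * s := by rw [hse]; ring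
  -- the vectors a, b
  have ha' : a = (r / 2) • P := ha
  have hb' : b = (r / 2) • Q := by
    rw [hb, hQ, smul_smul]; congr 1; ring
  have na : ‖a‖ ^ 2 = r2 / 4 * ‖P‖ ^ 2 := by
    rw [ha', norm_smul, mul_pow, Real.norm_eq_abs, sq_abs, hr2]; ring
  have nb : ‖b‖ ^ 2 = r2 / 4 * ‖Q‖ ^ 2 := by
    rw [hb', norm_smul, mul_pow, Real.norm_eq_abs, sq_abs, hr2]; ring
  have nab : (inner ℝ a b : ℝ) = r2 / 4 * inner ℝ P Q := by
    rw [ha', hb', real_inner_smul_left, real_inner_smul_right, hr2]; ring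
  set W : ℝ := (inner ℝ P H : ℝ) ^ 2 + (inner ℝ Q H : ℝ) ^ 2 with hW
  set R : ℝ := (‖P‖ ^ 2 - ‖Q‖ ^ 2) ^ 2 + 4 * (inner ℝ P Q : ℝ) ^ 2 with hR
  have hR0 : 0 ≤ R := by positivity
  have hW0 : 0 ≤ W := by positivity
  have hy0 : 0 ≤ y := by rw [hyH]; positivity
  have hθ0 : 0 ≤ θ := by rw [pe1]; positivity
  have eR : r2 ^ 2 * R = 16 * (s ^ 2 - 4 * D) := by
    rw [hs, hD, na, nb, nab, hR]; ring
  -- `ZZ`
  have eZ : 2 * ZZ A = y ^ 2 + W := by
    have h10 : A 1 0 = A 0 1 := hA 1 0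
    have hHs : H = A 0 0 + A 1 1 := by
      rw [hH]; unfold Hv; rw [Fin.sum_univ_two]
    have z00 : (inner ℝ P H : ℝ) = zz A 0 0 - zz A 1 1 := by
      rw [hP, inner_sub_left]; rfl
    have z01 : (inner ℝ Q H : ℝ) = 2 * zz A 0 1 := by
      rw [hQ, real_inner_smul_left]; rfl
    have zs : y = zz A 0 0 + zz A 1 1 := by
      rw [hyH, ← real_inner_self_eq_norm_sq]
      conv_lhs => rw [hHs]
      rw [inner_add_left]
      unfold zz
      rw [← hH, hHs]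
    have z10 : zz A 1 0 = zz A 0 1 := by unfold zz; rw [h10]
    unfold ZZ
    simp only [Fin.sum_univ_two]
    rw [hW, z00, z01, zs, z10]
    ring
  have hWle : W ≤ y * θ := by
    rw [hW, pe1, hyH]
    have c1 := real_inner_mul_inner_self_le P H
    have c2 := real_inner_mul_inner_self_le Q H
    rw [real_inner_self_eq_norm_sq, real_inner_self_eq_norm_sq] at c1 c2
    have e3 : ‖H‖ ^ 2 * (‖P‖ ^ 2 + ‖Q‖ ^ 2) = ‖P‖ ^ 2 * ‖H‖ ^ 2 + ‖Q‖ ^ 2 * ‖H‖ ^ 2 := by ring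
    rw [e3, pow_two (inner ℝ P H), pow_two (inner ℝ Q H)]
    linarith
  have hθ23 : θ ≤ 2 / 3 * y := by
    have : r2 * θ ≤ r2 * (2 / 3 * y) := by
      have e3 : r2 * (2 / 3 * y) = 2 / 3 * (r2 * y) := by ring
      rw [e3, e1, e2]; linarith
    exact le_of_mul_le_mul_left this hr2p
  refine ⟨?_, hθ0, hθ23, by rw [eZ]; linarith, by rw [eZ]; linarith, ?_, ?_, ?_, ?_⟩
  · rw [div_le_iff₀ hr2p, mul_comm, e1]; linarith
  · have h6 := hT3 2 N T hT
    have e6 : (3 : ℝ) / (((2 : ℕ) : ℝ) + 2) = 3 / 4 := by norm_num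
    rw [e6] at h6
    unfold eq2 tq
    linarith
  · have h : 4 * (1 + 0) * Sq A - 2 * ZZ A - 4 * 0 * AAH A - y * θ =
        W - (1 + 0) * ((y - 3 / 2 * θ) * θ + 1 / 2 * R) := pe2
    have h5 : θ * θ ≤ 2 / 3 * y * θ := mul_le_mul_of_nonneg_right hθ23 hθ0
    linarith [h, h5, hR0, hWle]
  · have h : 4 * (1 + 1 / 2) * Sq A - 2 * ZZ A - 4 * (1 / 2) * AAH A - y * θ =
        W - (1 + 1 / 2) * ((y - 3 / 2 * θ) * θ + 1 / 2 * R) := pe3
    have hvW : 16 * v = r2 ^ 2 * W := by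
      rw [hve]
      have : ZZ A - y ^ 2 / 2 = W / 2 := by linarith
      rw [this]; ring
    have key : r2 ^ 2 * (W - (1 + 1 / 2) * ((y - 3 / 2 * θ) * θ + 1 / 2 * R)) ≤
        r2 ^ 2 * (-(ε / 80 * (y * θ))) := by
      have f1 : r2 ^ 2 * (W - (1 + 1 / 2) * ((y - 3 / 2 * θ) * θ + 1 / 2 * R)) =
          r2 ^ 2 * W - 3 / 2 * ((r2 * y - 3 / 2 * (r2 * θ)) * (r2 * θ) + 1 / 2 * (r2 ^ 2 * R)) := by
        ring
      have f2 : r2 ^ 2 * (-(ε / 80 * (y * θ))) = -(ε / 80 * ((r2 * y) * (r2 * θ))) := by ring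
      rw [f1, f2, eR, e1, e2, ← hvW]
      have f3 : 16 * v - 3 / 2 * ((4 * (1 + x) - 3 / 2 * (4 * s)) * (4 * s) +
          1 / 2 * (16 * (s ^ 2 - 4 * D))) = 16 * v - 24 * (1 + x) * s + 24 * s ^ 2 + 48 * D := by
        ring
      have f4 : ε / 80 * (4 * (1 + x) * (4 * s)) = ε / 5 * ((1 + x) * s) := by ring
      rw [f3, f4]
      linarith [k1]
    have h3 := le_of_mul_le_mul_left key (by positivity : (0 : ℝ) < r2 ^ 2)
    have h4 : 6 * Sq A - 2 * ZZ A - 2 * AAH A - y * θ =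
        4 * (1 + 1 / 2) * Sq A - 2 * ZZ A - 4 * (1 / 2) * AAH A - y * θ := by ring
    rw [h4, h]
    exact h3
  · unfold eq2
    exact Finset.sum_nonneg fun k _ => by positivity

section Flow

variable {N : ℕ} {M : Type} [TopologicalSpace M] [ChartedSpace (EE 2) M] [IsManifold (𝓡 2) ∞ M]
  {J : Set ℝ} {F : M → ℝ → EE N}

/-- linear functions evolve -/
private theorem evlin (hEVB : StEVB) (hF : IsMCFJ (n := 2) J F) (α β : ℝ) :
    Evo J F (fun q t => α * AA (n := 2) F q t + β * YF F q t) :=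
  (hEVB N M J F hF.toIsImmJ (lin α β) (lin_smooth α β)).1

/-- heat operator and gradient of a linear function at a point -/
private theorem ptlin (hEVB : StEVB) (hF : IsMCFJ (n := 2) J F) (q : M) (t : ℝ) (ht : t ∈ J)
    (A : Fin 2 → Fin 2 → EE N) (T : Fin 2 → Fin 2 → Fin 2 → EE N) (ν : EE N) (v : Fin 2 → ℝ)
    (hl : ∀ (κ l : ℝ) (c : Co), c.Smooth →
        ‖WFd 2 κ l c F t q‖ ^ 2 = Real.exp (-(κ * ‖F q t‖ ^ 2 / 2)) ^ 2 *
          ∑ k, (gph l c A T ν v k + Va κ c A v k) ^ 2 ∧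
        dvg (n := 2) F (WFd 2 κ l c F t) q t
          = Real.exp (-(κ * ‖F q t‖ ^ 2 / 2)) *
            (deriv (fun s => c.φ (i4F 2 l F q s)) t + dvA κ l c A T ν v)) (α β : ℝ) :
    htF F (fun q t => α * AA (n := 2) F q t + β * YF F q t) q t = α * hX A T + β * hY A T ∧
    ‖gdM 2 F t (fun q => α * AA (n := 2) F q t + β * YF F q t) q‖ ^ 2 =
      ∑ k, (α * gX A T k + β * gY A T k) ^ 2 := by
  obtain ⟨a1, a2⟩ := hl 0 0 (cφ (lin α β)) (cs_smooth α β)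
  have he : Real.exp (-(0 * ‖F q t‖ ^ 2 / 2)) = 1 := by simp
  have hw : gdM 2 F t (fun q => α * AA (n := 2) F q t + β * YF F q t) =
      WFd 2 0 0 (cφ (lin α β)) F t := by
    funext q'
    exact (hEVB N M J F hF.toIsImmJ (lin α β) (lin_smooth α β)).2 q' t ht
  rw [he] at a1 a2
  constructor
  · have e1 : lapF F (fun q t => α * AA (n := 2) F q t + β * YF F q t) q t =
        dvg (n := 2) F (WFd 2 0 0 (cφ (lin α β)) F t) q t := by
      unfold lapF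
      rw [hw]
    have e2 : deriv (fun s => (cφ (lin α β)).φ (i4F 2 0 F q s)) t =
        deriv (fun s => α * AA (n := 2) F q s + β * YF F q s) t := rfl
    unfold htF
    rw [e1, a2, e2, dvA_lin]
    ring
  · rw [hw, a1]
    rw [one_pow, one_mul]
    refine Finset.sum_congr rfl fun k _ => ?_
    rw [gph_lin]
    unfold Va
    rw [zero_mul, add_zero]

end Flow

/-- **PKG** -/
theorem hPKG (hMDS : StMDS) (hSPH : StSPH) (hAV4 : StAV4) (hEVB : StEVB) (hT3 : StT3) (hPE : StPE)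
    (_hMLJ : StMLJ) (hJID : StJID) : StPKG := by
  intro N M _ _ _ J F hF hJ hsph ε hε hε1 hpin
  have hlf : ∀ (α β : ℝ) (w : M → ℝ → ℝ), (∀ q t, w q t = α * AA (n := 2) F q t + β * YF F q t) →
      w = fun q t => α * AA (n := 2) F q t + β * YF F q t := fun α β w h => by
    funext q t; exact h q t
  have eqY := hlf 0 1 (YF F) (fun q t => by ring)
  have eqθ := hlf 2 (-1) (thF 2 F) (fun q t => by unfold thF YF; ring)
  have eqm := hlf (-4) 3 (fun q t => YF F q t - 2 * thF 2 F q t)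
    (fun q t => by unfold thF YF; ring)
  have eqs := hlf 2 0 (fun q t => YF F q t + thF 2 F q t) (fun q t => by unfold thF YF; ring)
  have key : ∀ q, ∀ t ∈ J, 4 / (1 - 4 * t) ≤ YF F q t ∧ 4 ≤ YF F q t ∧ 0 ≤ thF 2 F q t ∧
      thF 2 F q t ≤ 2 / 3 * YF F q t ∧ 0 ≤ g3F F q t ∧
      ε / 80 * (YF F q t * thF 2 F q t) ≤ g3F F q t ∧
      ‖gdM 2 F t (fun q => YF F q t) q‖ ^ 2 ≤ 8 * (YF F q t * g3F F q t) ∧
      htF F (YF F) q t ≤ YF F q t ^ 2 + YF F q t * thF 2 F q t ∧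
      htF F (thF 2 F) q t ≤ 2 * (YF F q t * thF 2 F q t) ∧
      YF F q t ^ 2 - 4 * (YF F q t * thF 2 F q t)
        ≤ htF F (fun q t => YF F q t - 2 * thF 2 F q t) q t := by
    intro q t ht
    obtain ⟨L, u, A, T, ν, v, hG, hAu, hTu, hev, hA, hT, eX, eH, eZ, -, -, -, hμ, hl⟩ :=
      hMDS 2 N M J F hF q t ht
    obtain ⟨ht0, ht1⟩ := hJ ht
    have hr2p : 0 < 1 - 4 * t := by linarith
    -- the sphere
    have hev2 : ∀ᶠ z in 𝓝 ((0 : EE 2), t), ‖grf (F q t) L u z.2 z.1‖ ^ 2 = 1 - 4 * z.2 := by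
      have hJn : ∀ᶠ z : EE 2 × ℝ in 𝓝 ((0 : EE 2), t), z.2 ∈ J :=
        continuousAt_snd.eventually (hF.op.mem_nhds ht)
      filter_upwards [hev, hJn] with z h1 h2
      obtain ⟨q', hq'⟩ := h1
      rw [← hq']
      exact hsph q' z.2 h2
    obtain ⟨hx0, hs1, hs2⟩ := hSPH 2 N (F q t) L u t hG hev2 A T hAu hTu
    have hYq : YF F q t = YY A := by
      change ‖HH (n := 2) F q t‖ ^ 2 = ‖Hv A‖ ^ 2
      rw [eH]
    have hθq : thF 2 F q t = 2 * XX A - YY A := by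
      change 2 * AA (n := 2) F q t - ‖HH (n := 2) F q t‖ ^ 2 = 2 * XX A - ‖Hv A‖ ^ 2
      rw [eX, eH]
    have hr : 0 < Real.sqrt (1 - 4 * t) := Real.sqrt_pos.mpr hr2p
    have hr2 : (1 - 4 * t) = Real.sqrt (1 - 4 * t) ^ 2 := (Real.sq_sqrt hr2p.le).symm
    have hp : (1 - 4 * t) * (2 * XX A - YY A) / 4 - fm0 ((1 - 4 * t) * YY A / 4 - 1)
        + gm0 ((1 - 4 * t) * YY A / 4 - 1) *
          Real.sqrt ((1 - 4 * t) ^ 2 * (ZZ A - YY A ^ 2 / 2) / 8 + ε ^ 2) ≤ 0 := by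
      have h := hpin q t ht
      unfold PhF xS sS vS at h
      rw [eX, eH, eZ] at h
      exact h
    obtain ⟨b1, b2, b3, b4, b5, b6, b7, b8, b9⟩ := alg hAV4 hT3 hPE hJID (F q t)
      (Real.sqrt (1 - 4 * t)) (1 - 4 * t) ε A T hr hr2 hx0 hA hT hs1 hs2 hε hε1 hp
    obtain ⟨cY1, cY2⟩ := ptlin hEVB hF q t ht A T ν v hl 0 1
    obtain ⟨cθ1, -⟩ := ptlin hEVB hF q t ht A T ν v hl 2 (-1)
    obtain ⟨cm1, -⟩ := ptlin hEVB hF q t ht A T ν v hl (-4) 3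
    obtain ⟨-, hd⟩ := hμ (1 / 2)
    have hg3 : g3F F q t = 6 * tq T - 4 * eq2 T
        - (6 * Sq A - 2 * ZZ A - 2 * AAH A - YY A * (2 * XX A - YY A)) := by
      unfold g3F
      rw [hd.deriv, eH, hθq]
      unfold hX hY
      change ‖Hv A‖ ^ 2 * (2 * XX A - YY A) - (dvg (n := 2) F (VF 2 (1 / 2) F t) q t +
        2 * (1 + 1 / 2) * (-2 * tq T + 2 * Sq A) - (-2 * eq2 T + 2 * ZZ A)
        + 4 * (1 / 2) * eq2 T - 4 * (1 / 2) * AAH A - dvg (n := 2) F (VF 2 (1 / 2) F t) q t) = _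
      unfold YY
      ring
    have hXe : hX A T = -2 * tq T + 2 * Sq A := rfl
    have hYe : hY A T = -2 * eq2 T + 2 * ZZ A := rfl
    have hy0 : 0 ≤ YY A := by unfold YY; positivity
    have hyθ : 0 ≤ YY A * (2 * XX A - YY A) := mul_nonneg hy0 b2
    have hεy : 0 ≤ ε / 80 * (YY A * (2 * XX A - YY A)) := by positivity
    have hg : 1 / 2 * eq2 T + ε / 80 * (YY A * (2 * XX A - YY A)) ≤ g3F F q t := by
      rw [hg3]; linarith
    have e4 : (4 : ℝ) ≤ 4 / (1 - 4 * t) := by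
      rw [le_div_iff₀ hr2p]; linarith
    have cY3 : ‖gdM 2 F t (fun q => YF F q t) q‖ ^ 2 = ∑ k, (0 * gX A T k + 1 * gY A T k) ^ 2 := by
      rw [← cY2]
      have : (fun q => YF F q t) = fun q => 0 * AA (n := 2) F q t + 1 * YF F q t := by
        funext q'; ring
      rw [this]
    have hgr : ∑ k, (0 * gX A T k + 1 * gY A T k) ^ 2 ≤ 4 * (YY A * eq2 T) := by
      unfold eq2
      rw [Finset.mul_sum, Finset.mul_sum]
      refine Finset.sum_le_sum fun k _ => ?_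
      have c1 := real_inner_mul_inner_self_le (Hv A) (et T k)
      rw [real_inner_self_eq_norm_sq, real_inner_self_eq_norm_sq] at c1
      have e5 : (0 * gX A T k + 1 * gY A T k) ^ 2 =
          4 * ((inner ℝ (Hv A) (et T k) : ℝ) * inner ℝ (Hv A) (et T k)) := by
        unfold gY; ring
      rw [e5]
      unfold YY
      linarith
    refine ⟨by rw [hYq]; exact b1, by rw [hYq]; linarith, by rw [hθq]; exact b2,
      by rw [hθq, hYq]; exact b3, by linarith, by rw [hθq, hYq]; linarith, ?_, ?_, ?_, ?_⟩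
    · rw [cY3, hYq]
      have h7 : YY A * (1 / 2 * eq2 T) ≤ YY A * g3F F q t :=
        mul_le_mul_of_nonneg_left (by linarith) hy0
      linarith
    · rw [eqY, cY1, ← eqY, hYq, hθq, hYe]
      linarith
    · rw [eqθ, cθ1, ← eqθ, hYq, hθq, hXe, hYe]
      linarith
    · rw [eqm, cm1, hYq, hθq, hXe, hYe]
      linarith
  refine ⟨⟨by positivity, fun q t ht => (key q t ht).2.1, fun q t ht => (key q t ht).2.2.1,
    fun q t ht => (key q t ht).2.2.2.1, fun q t ht => (key q t ht).2.2.2.2.1,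
    fun q t ht => (key q t ht).2.2.2.2.2.1, fun q t ht => (key q t ht).2.2.2.2.2.2.1,
    fun q t ht => (key q t ht).2.2.2.2.2.2.2.1, fun q t ht => (key q t ht).2.2.2.2.2.2.2.2.1,
    fun q t ht => (key q t ht).2.2.2.2.2.2.2.2.2, ?_, ?_, ?_, ?_⟩,
    fun q t ht => (key q t ht).1⟩
  · rw [eqY]; exact evlin hEVB hF 0 1
  · rw [eqθ]; exact evlin hEVB hF 2 (-1)
  · rw [eqm]; exact evlin hEVB hF (-4) 3
  · rw [eqs]; exact evlin hEVB hF 2 0

end Helper75.MS
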